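import Pool.Agent.TH703.CI.Assemble

set_option autoImplicit false

/-!
# MP_d0f6b1_co, Q1 for every generating set of `ℤ²` whose hull with `0` is a lattice rectangle

`𝒰 = S ⊂ ℤ²` is any finite generating set such that `conv(S ∪ {0})` is the rectangle
`[p, p+a] × [q, q+b]` (`a, b > 0`); `S` may be as sparse as one likes. Then `U(t)` has the least vertex
boundary among all sets of its size for EVERY `t ≥ 26 (ab)³`.
-/

namespace Pool.Agent.Results.MP_d0f6b1_co.Rectangle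
open Pool.Agent.TH703.CI
open scoped Pointwise

theorem result (p q : ℤ) (a b : ℕ) (ha : 0 < a) (hb : 0 < b) (S : Finset (ℤ × ℤ))
    (hgen : AddSubgroup.closure (S : Set (ℤ × ℤ)) = ⊤)
    (hhull : convexHull ℝ (insert (0 : ℝ × ℝ) ((fun u : ℤ × ℤ => ((u.1 : ℝ), (u.2 : ℝ))) '' (S : Set (ℤ × ℤ)))) =
      Set.Icc (p : ℝ) (p + a) ×ˢ Set.Icc (q : ℝ) (q + b)) :
    ∀ t : ℕ, 26 * (a * b) ^ 3 ≤ t → ∀ B : Set (ℤ × ℤ),
      B = {x : ℤ × ℤ | ((x.1 : ℝ), (x.2 : ℝ)) ∈ (t : ℝ) • convexHull ℝ (insert (0 : ℝ × ℝ)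
        ((fun u : ℤ × ℤ => ((u.1 : ℝ), (u.2 : ℝ))) '' (S : Set (ℤ × ℤ))))} →
      ∀ A : Finset (ℤ × ℤ), A.card = B.ncard →
        ((B + (S : Set (ℤ × ℤ))) \ B).ncard ≤ ((A + S) \ A).card := by
  classical
  intro t ht B hB A hA
  have hab : 1 ≤ a * b := Nat.mul_pos ha hb
  have ht0 : 0 < t := by
    have : 1 ≤ (a * b) ^ 3 := Nat.one_le_pow _ _ hab
    omega
  have htR : (0 : ℝ) < t := by exact_mod_cast ht0
  set K : Set (ℝ × ℝ) := insert (0 : ℝ × ℝ) ((fun u : ℤ × ℤ => ((u.1 : ℝ), (u.2 : ℝ))) '' (S : Set (ℤ × ℤ))) with hK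
  -- corners
  have hcorner : ∀ x y : ℤ, (x = p ∨ x = p + a) → (y = q ∨ y = q + b) → (x, y) ∈ insert (0 : ℤ × ℤ) S := by
    intro x y hx hy
    have h1 : ((x : ℝ), (y : ℝ)) ∈ Set.extremePoints ℝ (convexHull ℝ K) := by
      rw [hhull, extremePoints_prod]
      constructor
      · have : (p : ℝ) ≤ p + a := by simp
        rw [Set.extremePoints_Icc this]
        rcases hx with rfl | rfl
        · left; rfl
        · right; simp
      · have : (q : ℝ) ≤ q + b := by simp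
        rw [Set.extremePoints_Icc this]
        rcases hy with rfl | rfl
        · left; rfl
        · right; simp
    have h2 := extremePoints_convexHull_subset h1
    rw [Finset.mem_insert]
    rw [hK, Set.mem_insert_iff] at h2
    rcases h2 with h2 | ⟨u, hu, hu2⟩
    · left
      rw [Prod.mk_eq_zero] at h2
      rw [Prod.mk_eq_zero]
      exact ⟨by exact_mod_cast h2.1, by exact_mod_cast h2.2⟩
    · right
      rw [Prod.mk.injEq] at hu2
      have : u = (x, y) := Prod.ext (by exact_mod_cast hu2.1) (by exact_mod_cast hu2.2)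
      rw [← this]; exact_mod_cast hu
  -- bounds on S and 0
  have hb0 : ∀ u ∈ insert (0 : ℤ × ℤ) S, p ≤ u.1 ∧ u.1 ≤ p + a ∧ q ≤ u.2 ∧ u.2 ≤ q + b := by
    intro u hu
    have h1 : ((u.1 : ℝ), (u.2 : ℝ)) ∈ convexHull ℝ K := by
      apply subset_convexHull
      rw [Finset.mem_insert] at hu
      rcases hu with rfl | hu
      · left; simp
      · right; exact ⟨u, by exact_mod_cast hu, rfl⟩
    rw [hhull] at h1
    obtain ⟨⟨h2, h3⟩, h4, h5⟩ := h1
    simp only at h2 h3 h4 h5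
    exact ⟨by exact_mod_cast h2, by exact_mod_cast h3, by exact_mod_cast h4, by exact_mod_cast h5⟩
  -- U(t) is an integer box
  set box : ℕ → Finset (ℤ × ℤ) := fun s => Finset.Icc ((s : ℤ) * p) (s * (p + a)) ×ˢ Finset.Icc ((s : ℤ) * q) (s * (q + b)) with hbox
  have hcardbox : ∀ s : ℕ, (box s).card = (s * a + 1) * (s * b + 1) := by
    intro s
    rw [hbox]
    simp only [Finset.card_product, Int.card_Icc]
    have h1 : ((s : ℤ) * (p + a) + 1 - s * p).toNat = s * a + 1 := by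
      have : ((s : ℤ) * (p + a) + 1 - s * p) = ((s * a + 1 : ℕ) : ℤ) := by push_cast; ring
      rw [this, Int.toNat_natCast]
    have h2 : ((s : ℤ) * (q + b) + 1 - s * q).toNat = s * b + 1 := by
      have : ((s : ℤ) * (q + b) + 1 - s * q) = ((s * b + 1 : ℕ) : ℤ) := by push_cast; ring
      rw [this, Int.toNat_natCast]
    rw [h1, h2]
  have hBbox : B = (box t : Set (ℤ × ℤ)) := by
    rw [hB, hhull]
    ext x
    rw [Set.mem_setOf_eq, Set.mem_smul_set_iff_inv_smul_mem₀ htR.ne']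
    simp only [Prod.smul_mk, smul_eq_mul, Set.mem_prod, Set.mem_Icc, hbox, Finset.coe_product, Finset.coe_Icc]
    have e1 : (p : ℝ) ≤ (t : ℝ)⁻¹ * x.1 ↔ (t : ℤ) * p ≤ x.1 := by
      rw [le_inv_mul_iff₀ htR]; exact_mod_cast Iff.rfl
    have e2 : (t : ℝ)⁻¹ * x.1 ≤ p + a ↔ x.1 ≤ (t : ℤ) * (p + a) := by
      rw [inv_mul_le_iff₀ htR]; exact_mod_cast Iff.rfl
    have e3 : (q : ℝ) ≤ (t : ℝ)⁻¹ * x.2 ↔ (t : ℤ) * q ≤ x.2 := by
      rw [le_inv_mul_iff₀ htR]; exact_mod_cast Iff.rfl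
    have e4 : (t : ℝ)⁻¹ * x.2 ≤ q + b ↔ x.2 ≤ (t : ℤ) * (q + b) := by
      rw [inv_mul_le_iff₀ htR]; exact_mod_cast Iff.rfl
    rw [e1, e2, e3, e4]
  have hAcard : A.card = (t * a + 1) * (t * b + 1) := by
    rw [hA, hBbox, Set.ncard_coe_finset, hcardbox]
  have h0box := hb0 0 (Finset.mem_insert_self _ _)
  simp only [Prod.fst_zero, Prod.snd_zero] at h0box
  have hsub1 : box t ⊆ box (t + 1) := by
    intro x hx
    simp only [hbox, Finset.mem_product, Finset.mem_Icc] at hx ⊢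
    push_cast
    refine ⟨⟨by nlinarith [hx.1.1], by nlinarith [hx.1.2]⟩, by nlinarith [hx.2.1], by nlinarith [hx.2.2]⟩
  have hsub2 : ∀ x ∈ box t, ∀ u ∈ S, x + u ∈ box (t + 1) := by
    intro x hx u hu
    have h1 := hb0 u (Finset.mem_insert_of_mem hu)
    simp only [hbox, Finset.mem_product, Finset.mem_Icc, Prod.fst_add, Prod.snd_add] at hx ⊢
    push_cast
    refine ⟨⟨by nlinarith [hx.1.1], by nlinarith [hx.1.2]⟩, by nlinarith [hx.2.1], by nlinarith [hx.2.2]⟩
  have hleft : ((B + (S : Set (ℤ × ℤ))) \ B).ncard ≤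
      ((t + 1) * a + 1) * ((t + 1) * b + 1) - (t * a + 1) * (t * b + 1) := by
    have h1 : ((B + (S : Set (ℤ × ℤ))) \ B) ⊆ ((box (t + 1) \ box t : Finset (ℤ × ℤ)) : Set (ℤ × ℤ)) := by
      rintro z ⟨hz1, hz2⟩
      rw [Set.mem_add] at hz1
      obtain ⟨x, hx, u, hu, rfl⟩ := hz1
      rw [hBbox] at hx hz2
      rw [Finset.coe_sdiff]
      exact ⟨by exact_mod_cast hsub2 x (by exact_mod_cast hx) u (by exact_mod_cast hu), hz2⟩
    calc _ ≤ _ := Set.ncard_le_ncard h1 (Finset.finite_toSet _)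
      _ = (box (t + 1) \ box t).card := Set.ncard_coe_finset _
      _ = (box (t + 1)).card - (box t).card := Finset.card_sdiff_of_subset hsub1
      _ = _ := by rw [hcardbox, hcardbox]
  have hgen0 : AddSubgroup.closure ((insert (0 : ℤ × ℤ) S : Finset (ℤ × ℤ)) : Set (ℤ × ℤ)) = ⊤ := by
    rw [eq_top_iff, ← hgen]
    apply AddSubgroup.closure_mono
    simp
  have hmain := core' p q a b t ha hb ht (insert 0 S) hgen0 (Finset.mem_insert_self _ _)
    (hcorner p q (Or.inl rfl) (Or.inl rfl)) (hcorner _ _ (Or.inr rfl) (Or.inl rfl))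
    (hcorner _ _ (Or.inl rfl) (Or.inr rfl)) (hcorner _ _ (Or.inr rfl) (Or.inr rfl)) A hAcard
  have hAun : A + insert (0 : ℤ × ℤ) S = A ∪ ((A + S) \ A) := by
    rw [Finset.union_sdiff_self_eq_union, Finset.insert_eq, Finset.add_union, Finset.add_singleton]
    simp
  have hcu : (A + insert (0 : ℤ × ℤ) S).card = A.card + ((A + S) \ A).card := by
    rw [hAun, Finset.card_union_of_disjoint Finset.disjoint_sdiff]
  omega

end Pool.Agent.Results.MP_d0f6b1_co.Rectangle
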